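import Pool.Agent.Helper18.SK.Defs

set_option autoImplicit false

open Pool.Agent.Helper18.SK

namespace Pool.Agent.Helper39.SK

/-- all words of length `K` over `Fin (m+1)` -/
def words (m K : ℕ) : Multiset (List (Fin (m + 1))) :=
  (Finset.univ : Finset (Fin K → Fin (m + 1))).val.map List.ofFn

theorem words_nodup (m K : ℕ) : (words m K).Nodup :=
  (Multiset.nodup_map_iff_of_injective List.ofFn_injective).2 Finset.univ.nodup

theorem mem_words (m K : ℕ) (x : List (Fin (m + 1))) : x ∈ words m K ↔ x.length = K := by
  constructor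
  · intro h
    obtain ⟨f, -, rfl⟩ := Multiset.mem_map.1 h
    exact List.length_ofFn
  · intro h
    subst h
    exact Multiset.mem_map.2 ⟨x.get, Finset.mem_univ _, List.ofFn_get x⟩

theorem card_words (m K : ℕ) : Multiset.card (words m K) = (m + 1) ^ K := by
  simp [words]

theorem words_rotate (m K : ℕ) : (words m K).map (fun x => x.rotate 1) = words m K := by
  have hinj : Function.Injective (fun x : List (Fin (m + 1)) => x.rotate 1) :=
    List.rotate_injective 1
  refine (Multiset.Nodup.ext ((Multiset.nodup_map_iff_of_injective hinj).2 (words_nodup m K))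
    (words_nodup m K)).2 ?_
  intro a
  rw [mem_words, Multiset.mem_map]
  constructor
  · rintro ⟨b, hb, rfl⟩
    rw [mem_words] at hb
    simpa using hb
  · intro h
    rcases K with _ | K
    · refine ⟨a, (mem_words _ _ _).2 h, ?_⟩
      have : a = [] := List.length_eq_zero_iff.1 h
      subst this
      simp
    · refine ⟨a.rotate K, (mem_words _ _ _).2 (by simpa using h), ?_⟩
      show (a.rotate K).rotate 1 = a
      rw [List.rotate_rotate, ← h, List.rotate_length]

theorem take_rotate {α : Type} (x : List α) (K : ℕ) (hx : x.length = K + 1) :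
    (x.rotate 1).take K = x.drop 1 := by
  rcases x with _ | ⟨a, x⟩
  · simp at hx
  · have : x.length = K := by simpa using hx
    simp [List.rotate_cons_succ, ← this]

theorem words_map (m K : ℕ) : (words m (K + 1)).map (fun x => x.take K) =
    (words m (K + 1)).map (fun x => x.drop 1) := by
  conv_lhs => rw [← words_rotate m (K + 1)]
  rw [Multiset.map_map]
  refine Multiset.map_congr rfl ?_
  intro x hx
  rw [mem_words] at hx
  exact take_rotate x K hx

theorem conn {α : Type} (K : ℕ) : ∀ (u v : List α), v.length = K →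
    ∃ l : List (List α), IsWalk (fun x : List α => x.take K) (fun x => x.drop 1) v
      ((v ++ u).drop u.length) l ∧ ∀ a ∈ l, a.length = K + 1 := by
  intro u
  induction u with
  | nil => intro v hv; exact ⟨[], by simp [IsWalk], by simp⟩
  | cons a u ih =>
    intro v hv
    obtain ⟨l, hl, hl2⟩ := ih ((v ++ [a]).drop 1) (by simp [hv])
    refine ⟨(v ++ [a]) :: l, ⟨?_, ?_⟩, ?_⟩
    · show (v ++ [a]).take K = v
      rw [← hv, List.take_left]
    · show IsWalk _ _ ((v ++ [a]).drop 1) _ l
      have : (v ++ a :: u).drop (a :: u).length = ((v ++ [a]).drop 1 ++ u).drop u.length := by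
        have h1 : (v ++ [a]).drop 1 ++ u = (v ++ a :: u).drop 1 := by
          rcases v with _ | ⟨b, v⟩
          · simp
          · simp
        rw [h1, List.drop_drop]
        congr 1
        simp [add_comm]
      rw [this]
      exact hl
    · intro x hx
      rcases List.mem_cons.1 hx with rfl | hx
      · simp [hv]
      · exact hl2 x hx

theorem lift {α : Type} (K : ℕ) (z : List α) (hz : z.length = K + 1) :
    ∀ (l : List (List α)) (v x : List α),
      IsWalk (fun x : List α => x.take K) (fun x => x.drop 1) v (z.take K) (x :: l) →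
      (∀ a ∈ x :: l, a.length = K + 1) →
      ∃ H : List (List α), IsWalk (bsrc (K + 2)) btgt x z H ∧
        H.map (bsrc (K + 2)) = x :: l ∧ ∀ h ∈ H, h.length = K + 2 := by
  have key : ∀ x y : List α, x.length = K + 1 → y.length = K + 1 → x.drop 1 = y.take K →
      bsrc (K + 2) (x ++ y.drop K) = x ∧ btgt (x ++ y.drop K) = y ∧
        (x ++ y.drop K).length = K + 2 := by
    intro x y hx hy h
    refine ⟨?_, ?_, ?_⟩
    · show (x ++ y.drop K).take (K + 2 - 1) = x
      rw [show K + 2 - 1 = x.length from by rw [hx]; rfl, List.take_left]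
    · show (x ++ y.drop K).drop 1 = y
      rw [List.drop_append_of_le_length (by rw [hx]; omega), h, List.take_append_drop]
    · simp [hx, hy]
  intro l
  induction l with
  | nil =>
    intro v x hw hlen
    have hx : x.length = K + 1 := hlen x (by simp)
    have h1 : x.drop 1 = z.take K := hw.2
    obtain ⟨a1, a2, a3⟩ := key x z hx hz h1
    refine ⟨[x ++ z.drop K], ⟨a1, a2⟩, by simp [a1], ?_⟩
    intro h hh
    rw [List.mem_singleton] at hh
    rw [hh]
    exact a3
  | cons y l ih =>
    intro v x hw hlen
    have hx : x.length = K + 1 := hlen x (by simp)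
    have hy : y.length = K + 1 := hlen y (by simp)
    have h2 : IsWalk (fun x : List α => x.take K) (fun x => x.drop 1) (x.drop 1) (z.take K)
      (y :: l) := hw.2
    have h1 : x.drop 1 = y.take K := h2.1.symm
    obtain ⟨a1, a2, a3⟩ := key x y hx hy h1
    obtain ⟨H, b1, b2, b3⟩ := ih (x.drop 1) y h2 (fun a ha => hlen a (List.mem_cons_of_mem _ ha))
    refine ⟨(x ++ y.drop K) :: H, ⟨a1, by rw [a2]; exact b1⟩, by simp [a1, b2], ?_⟩
    intro h hh
    rcases List.mem_cons.1 hh with rfl | hh
    · exact a3
    · exact b3 h hh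

theorem ha (hE : GEuler) : GHam := by
  intro m k hk
  obtain ⟨k, rfl⟩ : ∃ k', k = k' + 1 := ⟨k - 1, by omega⟩
  rcases k with _ | K
  · refine ⟨[], [[0]], ⟨rfl, rfl⟩, by simp, by simp, by simp, by simp, ?_⟩
    intro v hv
    have : v = [] := List.length_eq_zero_iff.1 hv
    subst this
    simp [bsrc]
  · set e₀ : List (Fin (m + 1)) := List.replicate (K + 1) 0 with he₀
    have he₀M : e₀ ∈ words m (K + 1) := (mem_words _ _ _).2 (by simp [he₀])
    obtain ⟨l, hl, hlM⟩ := hE (List (Fin (m + 1))) (List (Fin (m + 1)))
      (fun x => x.take K) (fun x => x.drop 1) (words m (K + 1)) (words_map m K) (by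
        intro e he e' he'
        rw [mem_words] at he he'
        obtain ⟨l, hl, hl2⟩ := conn K (e'.take K) (e.drop 1) (by simp [he])
        refine ⟨l, ?_, fun a ha => (mem_words _ _ _).2 (hl2 a ha)⟩
        have h1 : (e'.take K).length = (e.drop 1).length := by simp [he, he']
        rw [h1, List.drop_left] at hl
        exact hl) e₀ he₀M
    have hmem : ∀ x, x ∈ e₀ :: l ↔ x.length = K + 1 := by
      intro x
      rw [← mem_words m (K + 1) x, ← hlM]
      exact Iff.rfl
    obtain ⟨H, b1, b2, b3⟩ := lift K e₀ (by simp [he₀]) l _ e₀ hl (fun a ha => (hmem a).1 ha)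
    have hnd : (H.map (bsrc (K + 2))).Nodup := by
      rw [b2]
      have := words_nodup m (K + 1)
      rw [← hlM] at this
      exact this
    refine ⟨e₀, H, b1, hnd.of_map _, b3, ?_, hnd, ?_⟩
    · have h1 : H.length = (H.map (bsrc (K + 2))).length := by simp
      rw [h1, b2]
      have h2 := card_words m (K + 1)
      rw [← hlM] at h2
      exact h2
    · intro v hv
      show v ∈ H.map (bsrc (K + 2))
      rw [b2]
      exact (hmem v).2 hv

end Pool.Agent.Helper39.SK
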